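import Pool.Agent.H44.EHN.Stmts

/-!
# Row `CL1` of the board `ehn`: equal exponents, the products are close
-/

set_option autoImplicit false

namespace EHN

open Finset

theorem cl1_thm : CL1Stmt := by
  intro L Y H' E T n n' e e' hY hn hee hE
  have hS : ∑ i ∈ range L, ∑ m ∈ T, e i m ≤ L * E := by
    calc ∑ i ∈ range L, ∑ m ∈ T, e i m ≤ ∑ _i ∈ range L, E :=
          sum_le_sum fun i hi => hE i (mem_range.1 hi)
      _ = L * E := by simp
  obtain ⟨r, hr⟩ := Nat.exists_eq_add_of_le hS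
  have h1 : (∏ i ∈ range L, ∏ m ∈ T, (m + 1 + n i) ^ e i m) *
      Y ^ (∑ i ∈ range L, ∑ m ∈ T, e i m) ≤
      (∏ i ∈ range L, ∏ m ∈ T, (m + 1) ^ e i m) *
        (Y + H') ^ (∑ i ∈ range L, ∑ m ∈ T, e i m) := by
    have hY' : Y ^ (∑ i ∈ range L, ∑ m ∈ T, e i m) = ∏ i ∈ range L, ∏ m ∈ T, Y ^ e i m := by
      rw [← prod_pow_eq_pow_sum]
      exact prod_congr rfl fun i _ => (prod_pow_eq_pow_sum _ _ _).symm
    have hH' : (Y + H') ^ (∑ i ∈ range L, ∑ m ∈ T, e i m) =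
        ∏ i ∈ range L, ∏ m ∈ T, (Y + H') ^ e i m := by
      rw [← prod_pow_eq_pow_sum]
      exact prod_congr rfl fun i _ => (prod_pow_eq_pow_sum _ _ _).symm
    rw [hY', hH', ← prod_mul_distrib, ← prod_mul_distrib]
    refine prod_le_prod' fun i hi => ?_
    rw [← prod_mul_distrib, ← prod_mul_distrib]
    refine prod_le_prod' fun m hm => ?_
    rw [← mul_pow, ← mul_pow]
    refine Nat.pow_le_pow_left ?_ _
    have a1 := hY m hm
    have a2 := hn i (mem_range.1 hi)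
    nlinarith [Nat.mul_le_mul a2 a1]
  have h2 : ∏ i ∈ range L, ∏ m ∈ T, (m + 1) ^ e i m = ∏ i ∈ range L, ∏ m ∈ T, (m + 1) ^ e' i m := by
    rw [prod_comm, prod_comm (s := range L) (f := fun i m => (m + 1) ^ e' i m)]
    refine prod_congr rfl fun m hm => ?_
    rw [prod_pow_eq_pow_sum, prod_pow_eq_pow_sum, hee m hm]
  have h3 : ∏ i ∈ range L, ∏ m ∈ T, (m + 1) ^ e' i m ≤
      ∏ i ∈ range L, ∏ m ∈ T, (m + 1 + n' i) ^ e' i m :=
    prod_le_prod' fun i _ => prod_le_prod' fun m _ => Nat.pow_le_pow_left (by omega) _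
  rw [hr, pow_add, pow_add, ← mul_assoc, ← mul_assoc]
  refine Nat.mul_le_mul (h1.trans ?_) (Nat.pow_le_pow_left (by omega) _)
  rw [h2]
  exact Nat.mul_le_mul_right _ h3

end EHN
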